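import Mathlib
import Pool.Agent.H29.IsdB

namespace Pool.Agent.Results.MP_dbe012_pr.Counter
open MeasureTheory H29.IsdDef

theorem result : ∃ μ₁ μ₂ : Measure ℝ, IsProbabilityMeasure μ₁ ∧ IsProbabilityMeasure μ₂ ∧
    Integrable id μ₁ ∧ Integrable id μ₂ ∧ min1 μ₁ = min1 μ₂ ∧ min2 μ₁ = min2 μ₂ ∧
    min3 μ₂ < min3 μ₁ ∧
    ∀ ν : Measure ℝ, IsProbabilityMeasure ν → Integrable id ν →
      ∃ p ∈ Set.Ioo (0 : ℝ) 1, iter (μ₂.conv ν) 2 p < iter (μ₁.conv ν) 2 p := by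
  have x0 : (0 : ℝ) ≤ 1 / 2 := by norm_num
  have x1 : (1 / 2 : ℝ) ≤ 1 := by norm_num
  have y0 : (0 : ℝ) ≤ 1 / 4 := by norm_num
  have y1 : (1 / 4 : ℝ) ≤ 1 := by norm_num
  haveI p1 := H29.IsdB.two_prob (a := 3) (b := 9) x0 x1
  haveI p2 := H29.IsdB.two_prob (a := 0) (b := 8) y0 y1
  refine ⟨H29.IsdB.two (1 / 2) 3 9, H29.IsdB.two (1 / 4) 0 8, p1, p2, H29.IsdB.two_intg _,
    H29.IsdB.two_intg _, ?_, ?_, ?_, fun ν hν h => ?_⟩
  · simp only [min1, H29.IsdB.two_int x0 x1, H29.IsdB.two_int y0 y1]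
    norm_num
  · simp only [min2, H29.IsdB.two_int x0 x1, H29.IsdB.two_int y0 y1]
    norm_num
  · simp only [min3, H29.IsdB.two_int x0 x1, H29.IsdB.two_int y0 y1]
    norm_num
  · by_contra hc
    push Not at hc
    obtain ⟨k2, k3⟩ := H29.IsdA.dom (H29.IsdB.conv_intg h) (H29.IsdB.conv_intg h) hc
    exact absurd (H29.IsdB.main h k2) (not_lt.2 k3)

end Pool.Agent.Results.MP_dbe012_pr.Counter
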